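import Pool.Agent.Lib.MP_2558e3_co.Final

/-!
# The clustering ideal at `r = 2` is spanned by the admissible Jack superpolynomials

For all `N` and all `k ≥ 1`: every superpartition `Λ` with `N` parts has a unique Jack
superpolynomial over `ℚ(α)`; for `(k,2,N)`-admissible `Λ` its monomial coefficients have no pole
at `α = -(k+1)`; and the specialized Jack superpolynomials of the `(k,2,N)`-admissible
superpartitions form a `ℂ`-basis of the space of symmetric superpolynomials which vanish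
at `x_1 = ... = x_{k+1}`.
-/

namespace Pool.Agent.Results.MP_2558e3_co.JackBasis

open Pool.Agent.Lib.MP_2558e3_co

theorem result (N k : ℕ) (hk : 1 ≤ k) :
    (∀ Λ : SPart N, ∃! c : SPart N →₀ RatFunc ℚ, IsJack RatFunc.X Λ c) ∧
    ∀ c : SPart N → (SPart N →₀ RatFunc ℚ), (∀ Λ, IsJack RatFunc.X Λ (c Λ)) →
      (∀ Λ : SPart N, Λ.Admissible k 2 →
        ∀ Ω : SPart N, (c Λ Ω).denom.eval (-((k : ℚ) + 1)) ≠ 0) ∧
      LinearIndependent ℂ (fun Λ : {Λ : SPart N // Λ.Admissible k 2} =>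
        specAt (-((k : ℂ) + 1)) (c Λ)) ∧
      (Submodule.span ℂ (Set.range (fun Λ : {Λ : SPart N // Λ.Admissible k 2} =>
        specAt (-((k : ℂ) + 1)) (c Λ))) : Set (SuperPoly ℂ N)) = Clust N k := by
  refine ⟨?_, ?_⟩
  · intro Λ
    obtain ⟨c, hc⟩ := jack_exists Λ
    exact ⟨c, hc, fun c' hc' => jack_unique hc' hc⟩
  · intro c hc
    exact ⟨fun Λ hΛ => (spec_super hk hΛ (hc Λ)).1, lin_indep hk hc, span_eq hk hc⟩

end Pool.Agent.Results.MP_2558e3_co.JackBasis
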